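import Pool.Agent.W978.QN.Stm

namespace Pool.Agent.W101.QN

open Pool.Agent.W978.QN

theorem gcd_sq_sum (g X : ℕ) (hg : 1 ≤ g) :
    ∑ z ∈ Finset.Ioc 0 X, (Nat.gcd g z) ^ 2 ≤ X * (g * g.divisors.card) := by
  have h1 : ∀ z ∈ Finset.Ioc 0 X, (Nat.gcd g z) ^ 2 ≤
      ∑ d ∈ g.divisors, if d ∣ z then d ^ 2 else 0 := by
    intro z _
    have hmem : Nat.gcd g z ∈ g.divisors :=
      Nat.mem_divisors.2 ⟨Nat.gcd_dvd_left g z, by omega⟩
    have h2 := Finset.single_le_sum (f := fun d => if d ∣ z then d ^ 2 else 0)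
      (fun d _ => Nat.zero_le _) hmem
    have h3 : (if Nat.gcd g z ∣ z then (Nat.gcd g z) ^ 2 else 0) = (Nat.gcd g z) ^ 2 :=
      if_pos (Nat.gcd_dvd_right g z)
    rw [← h3]
    exact h2
  calc ∑ z ∈ Finset.Ioc 0 X, (Nat.gcd g z) ^ 2
      ≤ ∑ z ∈ Finset.Ioc 0 X, ∑ d ∈ g.divisors, (if d ∣ z then d ^ 2 else 0) :=
        Finset.sum_le_sum h1
    _ = ∑ d ∈ g.divisors, ∑ z ∈ Finset.Ioc 0 X, (if d ∣ z then d ^ 2 else 0) :=
        Finset.sum_comm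
    _ ≤ ∑ d ∈ g.divisors, X * g := by
        apply Finset.sum_le_sum
        intro d hd
        rw [← Finset.sum_filter, Finset.sum_const, smul_eq_mul, Nat.Ioc_filter_dvd_card_eq_div]
        have hdg : d ≤ g := Nat.divisor_le hd
        calc X / d * d ^ 2 = (X / d * d) * d := by ring
          _ ≤ X * g := Nat.mul_le_mul (Nat.div_mul_le_self X d) hdg
    _ = X * (g * g.divisors.card) := by
        rw [Finset.sum_const, smul_eq_mul]
        ring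

theorem sum_abs (F : ℕ → ℝ) (X : ℕ) :
    ∑ z ∈ Finset.Icc (-(X : ℤ)) X, F z.natAbs = F 0 + 2 * ∑ z ∈ Finset.Ioc 0 X, F z := by
  induction X with
  | zero => simp
  | succ n ih =>
    have h1 : Finset.Icc (-((n + 1 : ℕ) : ℤ)) ((n + 1 : ℕ) : ℤ) =
        insert (((n + 1 : ℕ) : ℤ)) (insert (-((n + 1 : ℕ) : ℤ)) (Finset.Icc (-(n : ℤ)) n)) := by
      ext z
      simp only [Finset.mem_Icc, Finset.mem_insert]
      omega
    have h2 : -((n + 1 : ℕ) : ℤ) ∉ Finset.Icc (-(n : ℤ)) n := by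
      simp only [Finset.mem_Icc]
      omega
    have h3 : ((n + 1 : ℕ) : ℤ) ∉ insert (-((n + 1 : ℕ) : ℤ)) (Finset.Icc (-(n : ℤ)) n) := by
      simp only [Finset.mem_Icc, Finset.mem_insert]
      omega
    have h4 : Finset.Ioc 0 (n + 1) = insert (n + 1) (Finset.Ioc 0 n) := by
      ext z
      simp only [Finset.mem_Ioc, Finset.mem_insert]
      omega
    have h5 : n + 1 ∉ Finset.Ioc 0 n := by
      simp only [Finset.mem_Ioc]
      omega
    rw [h1, Finset.sum_insert h3, Finset.sum_insert h2, ih, h4, Finset.sum_insert h5]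
    have h6 : (((n + 1 : ℕ) : ℤ)).natAbs = n + 1 := Int.natAbs_natCast _
    have h7 : (-((n + 1 : ℕ) : ℤ)).natAbs = n + 1 := by
      rw [Int.natAbs_neg, Int.natAbs_natCast]
    rw [h6, h7]
    ring

theorem slice_card (S : Finset (Fin 3 → ℤ)) (a b e : Fin 3)
    (cover : ∀ i, i = a ∨ i = b ∨ i = e) (z0 : ℤ) (m : ℕ) (hm : 1 ≤ m) (D : ℝ) (hD : 0 ≤ D)
    (h1 : ∀ q ∈ S, q e = z0)
    (h2 : ∀ q ∈ S, ∀ q' ∈ S, |((q a - q' a : ℤ) : ℝ)| ≤ D ∧ |((q b - q' b : ℤ) : ℝ)| ≤ D)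
    (h3 : ∀ q ∈ S, ∀ q' ∈ S, (m : ℤ) ∣ q a - q' a ∧ (m : ℤ) ∣ q b - q' b) :
    (S.card : ℝ) ≤ 2 + 8 * D ^ 2 / (m : ℝ) ^ 2 := by
  rcases S.eq_empty_or_nonempty with hS | ⟨q0, hq0⟩
  · rw [hS, Finset.card_empty, Nat.cast_zero]
    positivity
  have hmR : (0 : ℝ) < m := by exact_mod_cast hm
  have hmZ : (m : ℤ) ≠ 0 := by
    have : 0 < m := hm
    exact_mod_cast this.ne'
  obtain ⟨T, hT⟩ : ∃ T : ℕ, T = ⌊D / m⌋₊ := ⟨_, rfl⟩
  have hTle : (T : ℝ) ≤ D / m := by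
    rw [hT]
    exact Nat.floor_le (by positivity)
  have key : ∀ δ : ℤ, |(δ : ℝ)| ≤ D → (m : ℤ) ∣ δ → δ / (m : ℤ) ∈ Finset.Icc (-(T : ℤ)) T := by
    intro δ hδ hdvd
    obtain ⟨t, ht⟩ := hdvd
    have h4 : δ / (m : ℤ) = t := by
      rw [ht]
      exact Int.mul_ediv_cancel_left t hmZ
    rw [h4]
    have h5 : |(t : ℝ)| ≤ D / m := by
      rw [le_div_iff₀ hmR]
      have h6 : |(δ : ℝ)| = |(t : ℝ)| * m := by
        rw [ht]
        push_cast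
        rw [abs_mul, abs_of_pos hmR]
        ring
      linarith
    have h7 : t.natAbs ≤ T := by
      rw [hT]
      apply Nat.le_floor
      have h8 : ((t.natAbs : ℕ) : ℝ) = |(t : ℝ)| := by
        rw [← Int.cast_natCast, Int.natCast_natAbs, Int.cast_abs]
      rw [h8]
      exact h5
    rw [Finset.mem_Icc]
    omega
  have hcard : S.card ≤ (Finset.Icc (-(T : ℤ)) T ×ˢ Finset.Icc (-(T : ℤ)) T).card := by
    apply Finset.card_le_card_of_injOn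
      (fun q => ((q a - q0 a) / (m : ℤ), (q b - q0 b) / (m : ℤ)))
    · intro q hq
      have hq' : q ∈ S := hq
      simp only [Finset.coe_product, Set.mem_prod, Finset.mem_coe]
      exact ⟨key _ (h2 q hq' q0 hq0).1 (h3 q hq' q0 hq0).1,
        key _ (h2 q hq' q0 hq0).2 (h3 q hq' q0 hq0).2⟩
    · intro q hq q' hq' heq
      have hqS : q ∈ S := hq
      have hqS' : q' ∈ S := hq'
      simp only [Prod.mk.injEq] at heq
      obtain ⟨e1, e2⟩ := heq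
      obtain ⟨t1, ht1⟩ := (h3 q hqS q0 hq0).1
      obtain ⟨t1', ht1'⟩ := (h3 q' hqS' q0 hq0).1
      obtain ⟨t2, ht2⟩ := (h3 q hqS q0 hq0).2
      obtain ⟨t2', ht2'⟩ := (h3 q' hqS' q0 hq0).2
      rw [ht1, ht1', Int.mul_ediv_cancel_left _ hmZ, Int.mul_ediv_cancel_left _ hmZ] at e1
      rw [ht2, ht2', Int.mul_ediv_cancel_left _ hmZ, Int.mul_ediv_cancel_left _ hmZ] at e2
      rw [e1] at ht1
      rw [e2] at ht2
      funext i
      rcases cover i with hi | hi | hi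
      · rw [hi]; linarith
      · rw [hi]; linarith
      · rw [hi, h1 q hqS, h1 q' hqS']
  have hIcc : (Finset.Icc (-(T : ℤ)) T).card = 2 * T + 1 := by
    rw [Int.card_Icc]
    omega
  rw [Finset.card_product, hIcc] at hcard
  have hcR : (S.card : ℝ) ≤ (2 * T + 1) * (2 * T + 1) := by exact_mod_cast hcard
  have hx0 : 0 ≤ D / m := by positivity
  have hT0 : (0 : ℝ) ≤ T := Nat.cast_nonneg T
  have h9 : (2 * (T : ℝ) + 1) * (2 * T + 1) ≤ (2 * (D / m) + 1) * (2 * (D / m) + 1) := by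
    apply mul_le_mul <;> linarith
  have h10 : 8 * D ^ 2 / (m : ℝ) ^ 2 = 8 * (D / m) ^ 2 := by
    rw [div_pow]
    ring
  rw [h10]
  nlinarith [sq_nonneg (2 * (D / m) - 1)]

theorem sum3 (f : Fin 3 → ℤ) (j j' e : Fin 3) (h1 : j ≠ j') (h2 : e ≠ j) (h3 : e ≠ j') :
    ∑ i, f i = f j + f j' + f e := by
  rw [Fin.sum_univ_three]
  revert h1 h2 h3
  fin_cases j <;> fin_cases j' <;> fin_cases e <;> intro h1 h2 h3 <;>
    first
    | exact absurd rfl h1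
    | exact absurd rfl h2
    | exact absurd rfl h3
    | (simp only [Fin.zero_eta, Fin.mk_one, Fin.reduceFinMk]; try ring1)

theorem cp3 : ∀ (j e : Fin 3), j ≠ e → ∃ i, ∀ q q' : Fin 3 → ℤ,
    cp q q' i = q j * q' e - q e * q' j ∨ cp q q' i = -(q j * q' e - q e * q' j) := by
  have h0 : ∀ q q' : Fin 3 → ℤ, cp q q' 0 = q 1 * q' 2 - q 2 * q' 1 := fun q q' => rfl
  have h1 : ∀ q q' : Fin 3 → ℤ, cp q q' 1 = q 2 * q' 0 - q 0 * q' 2 := fun q q' => rfl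
  have h2 : ∀ q q' : Fin 3 → ℤ, cp q q' 2 = q 0 * q' 1 - q 1 * q' 0 := fun q q' => rfl
  have k1 : ∀ q q' : Fin 3 → ℤ, cp q q' 2 = -(q 1 * q' 0 - q 0 * q' 1) := by
    intro q q'; rw [h2]; ring
  have k2 : ∀ q q' : Fin 3 → ℤ, cp q q' 1 = -(q 0 * q' 2 - q 2 * q' 0) := by
    intro q q'; rw [h1]; ring
  have k3 : ∀ q q' : Fin 3 → ℤ, cp q q' 0 = -(q 2 * q' 1 - q 1 * q' 2) := by
    intro q q'; rw [h0]; ring
  intro j e h
  match j, e, h with
  | 0, 0, h => exact absurd rfl h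
  | 1, 1, h => exact absurd rfl h
  | 2, 2, h => exact absurd rfl h
  | 0, 1, _ => exact ⟨2, fun q q' => Or.inl (h2 q q')⟩
  | 1, 0, _ => exact ⟨2, fun q q' => Or.inr (k1 q q')⟩
  | 0, 2, _ => exact ⟨1, fun q q' => Or.inr (k2 q q')⟩
  | 2, 0, _ => exact ⟨1, fun q q' => Or.inl (h1 q q')⟩
  | 1, 2, _ => exact ⟨0, fun q q' => Or.inl (h0 q q')⟩
  | 2, 1, _ => exact ⟨0, fun q q' => Or.inr (k3 q q')⟩

/-- Divisibility after cancelling. -/
theorem dvd_div_gcd (g : ℕ) (hg : 1 ≤ g) (u δ : ℤ) (h : (g : ℤ) ∣ u * δ) :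
    ((g / Nat.gcd g u.natAbs : ℕ) : ℤ) ∣ δ := by
  have h1 : g ∣ u.natAbs * δ.natAbs := by
    rw [← Int.natAbs_mul]
    exact Int.natCast_dvd.1 h
  have hpos : 0 < Nat.gcd g u.natAbs := Nat.gcd_pos_of_pos_left _ hg
  have hcop : Nat.Coprime (g / Nat.gcd g u.natAbs) (u.natAbs / Nat.gcd g u.natAbs) :=
    Nat.coprime_div_gcd_div_gcd hpos
  have h2 : g / Nat.gcd g u.natAbs ∣ (u.natAbs / Nat.gcd g u.natAbs) * δ.natAbs := by
    obtain ⟨t, ht⟩ := h1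
    have hgd : Nat.gcd g u.natAbs * (g / Nat.gcd g u.natAbs) = g :=
      Nat.mul_div_cancel' (Nat.gcd_dvd_left _ _)
    have hud : Nat.gcd g u.natAbs * (u.natAbs / Nat.gcd g u.natAbs) = u.natAbs :=
      Nat.mul_div_cancel' (Nat.gcd_dvd_right _ _)
    refine ⟨t, ?_⟩
    apply Nat.eq_of_mul_eq_mul_left hpos
    calc Nat.gcd g u.natAbs * ((u.natAbs / Nat.gcd g u.natAbs) * δ.natAbs)
        = (Nat.gcd g u.natAbs * (u.natAbs / Nat.gcd g u.natAbs)) * δ.natAbs := by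
          rw [mul_assoc]
      _ = u.natAbs * δ.natAbs := by rw [hud]
      _ = g * t := ht
      _ = (Nat.gcd g u.natAbs * (g / Nat.gcd g u.natAbs)) * t := by rw [hgd]
      _ = Nat.gcd g u.natAbs * ((g / Nat.gcd g u.natAbs) * t) := by rw [mul_assoc]
  exact Int.natCast_dvd.2 (hcop.dvd_of_dvd_mul_left h2)

theorem gcd_le (g K n : ℕ) (hK : 1 ≤ K) : Nat.gcd g (K * n) ≤ K * Nat.gcd g n ∨ g = 0 := by
  rcases Nat.eq_zero_or_pos g with hg | hg
  · exact Or.inr hg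
  · left
    have h1 : Nat.gcd g (K * n) ∣ Nat.gcd g K * Nat.gcd g n := Nat.gcd_mul_right_dvd_mul_gcd g K n
    have h2 : 0 < Nat.gcd g K * Nat.gcd g n :=
      Nat.mul_pos (Nat.gcd_pos_of_pos_left _ hg) (Nat.gcd_pos_of_pos_left _ hg)
    exact (Nat.le_of_dvd h2 h1).trans
      (Nat.mul_le_mul_right _ (Nat.le_of_dvd hK (Nat.gcd_dvd_right g K)))

theorem third (j j' : Fin 3) (h : j ≠ j') :
    ∃ e : Fin 3, e ≠ j ∧ e ≠ j' ∧ ∀ i, i = j ∨ i = j' ∨ i = e := by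
  revert h
  revert j j'
  decide

theorem qb : S_QB := by
  intro A K c hA hK hc
  have hAR : (1 : ℝ) ≤ A := by exact_mod_cast hA
  have hKR : (1 : ℝ) ≤ K := by exact_mod_cast hK
  refine ⟨6 + 128 * (A : ℝ) ^ 2 * (K : ℝ) ^ 2 * (A + 2) / c ^ 2, by positivity, ?_⟩
  intro M X₁ X₂ Y g hX1 hX2 hg hgY hYA hM hmin Q hQ hQg
  obtain ⟨k, k', j, j', hmn⟩ := hmin
  have hX1R : (1 : ℝ) ≤ X₁ := by exact_mod_cast hX1
  have hX2R : (1 : ℝ) ≤ X₂ := by exact_mod_cast hX2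
  have hgR : (1 : ℝ) ≤ g := by exact_mod_cast hg
  have hY0 : (0 : ℝ) ≤ Y := Nat.cast_nonneg Y
  have hjj : j ≠ j' := by
    intro h
    have h0 : mnr M k k' j j' = 0 := by
      rw [h]
      unfold mnr
      ring
    rw [h0] at hmn
    have : 0 < c * (X₁ : ℝ) ^ 2 := by positivity
    simp only [Int.cast_zero, abs_zero] at hmn
    linarith
  obtain ⟨e, he1, he2, hcov⟩ := third j j' hjj
  obtain ⟨D, hD⟩ : ∃ D : ℝ, D = 4 * A * Y / (c * X₁) := ⟨_, rfl⟩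
  have hD0 : 0 ≤ D := by
    rw [hD]
    positivity
  -- differences
  have hdiff : ∀ q ∈ Q, ∀ q' ∈ Q, q e = q' e →
      |((q j - q' j : ℤ) : ℝ)| ≤ D ∧ |((q j' - q' j' : ℤ) : ℝ)| ≤ D := by
    intro q hq q' hq' hee
    have hrow : ∀ r, |M r j * (q j - q' j) + M r j' * (q j' - q' j')| ≤ 2 * (Y : ℤ) := by
      intro r
      have h1 := (hQ q hq).2.2 r
      have h2 := (hQ q' hq').2.2 r
      have h3 : wv M q r - wv M q' r = M r j * (q j - q' j) + M r j' * (q j' - q' j') := by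
        unfold wv
        rw [sum3 (fun i => M r i * q i) j j' e hjj he1 he2,
          sum3 (fun i => M r i * q' i) j j' e hjj he1 he2]
        rw [hee]
        ring
      rw [← h3]
      calc |wv M q r - wv M q' r| ≤ |wv M q r| + |wv M q' r| := abs_sub _ _
        _ ≤ 2 * (Y : ℤ) := by linarith
    have hcr1 : mnr M k k' j j' * (q j - q' j) =
        M k' j' * (M k j * (q j - q' j) + M k j' * (q j' - q' j')) -
        M k j' * (M k' j * (q j - q' j) + M k' j' * (q j' - q' j')) := by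
      unfold mnr
      ring
    have hcr2 : mnr M k k' j j' * (q j' - q' j') =
        M k j * (M k' j * (q j - q' j) + M k' j' * (q j' - q' j')) -
        M k' j * (M k j * (q j - q' j) + M k j' * (q j' - q' j')) := by
      unfold mnr
      ring
    have hbound : ∀ x y u v : ℤ, |x| ≤ (A : ℤ) * X₁ → |y| ≤ (A : ℤ) * X₁ → |u| ≤ 2 * (Y : ℤ) →
        |v| ≤ 2 * (Y : ℤ) → |x * u - y * v| ≤ 4 * ((A : ℤ) * X₁ * Y) := by
      intro x y u v hx hy hu hv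
      have hAX : (0 : ℤ) ≤ (A : ℤ) * X₁ := by positivity
      calc |x * u - y * v| ≤ |x * u| + |y * v| := abs_sub _ _
        _ = |x| * |u| + |y| * |v| := by rw [abs_mul, abs_mul]
        _ ≤ (A : ℤ) * X₁ * (2 * (Y : ℤ)) + (A : ℤ) * X₁ * (2 * (Y : ℤ)) := by
          apply add_le_add
          · exact mul_le_mul hx hu (abs_nonneg _) hAX
          · exact mul_le_mul hy hv (abs_nonneg _) hAX
        _ = 4 * ((A : ℤ) * X₁ * Y) := by ring
    have hfin : ∀ δ : ℤ, |mnr M k k' j j' * δ| ≤ 4 * ((A : ℤ) * X₁ * Y) → |(δ : ℝ)| ≤ D := by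
      intro δ hδ
      have h1 : |((mnr M k k' j j' : ℤ) : ℝ)| * |(δ : ℝ)| ≤ 4 * ((A : ℝ) * X₁ * Y) := by
        rw [← abs_mul]
        have h2 : ((|mnr M k k' j j' * δ| : ℤ) : ℝ) ≤ ((4 * ((A : ℤ) * X₁ * Y) : ℤ) : ℝ) := by
          exact_mod_cast hδ
        push_cast at h2
        exact h2
      have h3 : c * (X₁ : ℝ) ^ 2 * |(δ : ℝ)| ≤ 4 * ((A : ℝ) * X₁ * Y) :=
        (mul_le_mul_of_nonneg_right hmn (abs_nonneg _)).trans h1
      have hX1p : (0 : ℝ) < X₁ := by linarith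
      rw [hD, le_div_iff₀ (by positivity)]
      have h4 : (X₁ : ℝ) * (|(δ : ℝ)| * (c * X₁)) ≤ (X₁ : ℝ) * (4 * A * Y) := by
        calc (X₁ : ℝ) * (|(δ : ℝ)| * (c * X₁)) = c * (X₁ : ℝ) ^ 2 * |(δ : ℝ)| := by ring
          _ ≤ 4 * ((A : ℝ) * X₁ * Y) := h3
          _ = (X₁ : ℝ) * (4 * A * Y) := by ring
      exact le_of_mul_le_mul_left h4 hX1p
    constructor
    · apply hfin
      rw [hcr1]
      exact hbound _ _ _ _ (hM k' j') (hM k j') (hrow k) (hrow k')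
    · apply hfin
      rw [hcr2]
      exact hbound _ _ _ _ (hM k j) (hM k' j) (hrow k') (hrow k)
  -- divisibility
  have hdvd : ∀ q ∈ Q, ∀ q' ∈ Q, ∀ z0 : ℤ, q e = z0 → q' e = z0 →
      (g : ℤ) ∣ ((K : ℤ) * z0) * (q j - q' j) ∧ (g : ℤ) ∣ ((K : ℤ) * z0) * (q j' - q' j') := by
    intro q hq q' hq' z0 h1 h2
    have hgen : ∀ i0 : Fin 3, i0 ≠ e → (g : ℤ) ∣ ((K : ℤ) * z0) * (q i0 - q' i0) := by
      intro i0 hi0
      obtain ⟨i, hi⟩ := cp3 i0 e hi0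
      have h3 := hQg q hq q' hq' i
      rcases hi q q' with h4 | h4
      · rw [h4, h1, h2] at h3
        have h5 : (K : ℤ) * (q i0 * z0 - z0 * q' i0) = ((K : ℤ) * z0) * (q i0 - q' i0) := by ring
        rw [← h5]
        exact h3
      · rw [h4, h1, h2] at h3
        have h5 : (K : ℤ) * -(q i0 * z0 - z0 * q' i0) = -(((K : ℤ) * z0) * (q i0 - q' i0)) := by
          ring
        rw [h5] at h3
        exact (dvd_neg.1 h3)
    exact ⟨hgen j (Ne.symm he1), hgen j' (Ne.symm he2)⟩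
  -- slices
  have hslice : ∀ z0 : ℤ, ((Q.filter (fun q => q e = z0)).card : ℝ) ≤
      2 + 8 * D ^ 2 * (K : ℝ) ^ 2 / (g : ℝ) ^ 2 * ((Nat.gcd g z0.natAbs : ℕ) : ℝ) ^ 2 := by
    intro z0
    obtain ⟨G, hG⟩ : ∃ G : ℕ, G = Nat.gcd g ((K : ℤ) * z0).natAbs := ⟨_, rfl⟩
    have hGpos : 0 < G := by
      rw [hG]
      exact Nat.gcd_pos_of_pos_left _ hg
    have hGd : G ∣ g := by
      rw [hG]
      exact Nat.gcd_dvd_left _ _
    have hm1 : 1 ≤ g / G := Nat.div_pos (Nat.le_of_dvd hg hGd) hGpos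
    have h1 := slice_card (Q.filter (fun q => q e = z0)) j j' e hcov z0 (g / G) hm1 D hD0
      (fun q hq => (Finset.mem_filter.1 hq).2)
      (fun q hq q' hq' => hdiff q (Finset.mem_filter.1 hq).1 q' (Finset.mem_filter.1 hq').1
        ((Finset.mem_filter.1 hq).2.trans (Finset.mem_filter.1 hq').2.symm))
      (fun q hq q' hq' => by
        have h2 := hdvd q (Finset.mem_filter.1 hq).1 q' (Finset.mem_filter.1 hq').1 z0
          (Finset.mem_filter.1 hq).2 (Finset.mem_filter.1 hq').2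
        rw [hG]
        exact ⟨dvd_div_gcd g hg _ _ h2.1, dvd_div_gcd g hg _ _ h2.2⟩)
    refine h1.trans ?_
    have hGR : (0 : ℝ) < G := by exact_mod_cast hGpos
    have hgR' : (0 : ℝ) < g := by linarith
    have hcast : ((g / G : ℕ) : ℝ) = (g : ℝ) / G := by
      rw [Nat.cast_div hGd hGR.ne']
    rw [hcast]
    have hGle : (G : ℝ) ≤ K * ((Nat.gcd g z0.natAbs : ℕ) : ℝ) := by
      have h3 : G ≤ K * Nat.gcd g z0.natAbs := by
        rw [hG, Int.natAbs_mul, Int.natAbs_natCast]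
        rcases gcd_le g K z0.natAbs hK with h4 | h4
        · exact h4
        · omega
      exact_mod_cast h3
    have h5 : 8 * D ^ 2 / ((g : ℝ) / G) ^ 2 = 8 * D ^ 2 / (g : ℝ) ^ 2 * (G : ℝ) ^ 2 := by
      field_simp
    rw [h5]
    have h6 : (G : ℝ) ^ 2 ≤ (K * ((Nat.gcd g z0.natAbs : ℕ) : ℝ)) ^ 2 :=
      pow_le_pow_left₀ hGR.le hGle 2
    have h7 : 8 * D ^ 2 / (g : ℝ) ^ 2 * (G : ℝ) ^ 2 ≤
        8 * D ^ 2 / (g : ℝ) ^ 2 * (K * ((Nat.gcd g z0.natAbs : ℕ) : ℝ)) ^ 2 :=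
      mul_le_mul_of_nonneg_left h6 (by positivity)
    have h8 : 8 * D ^ 2 / (g : ℝ) ^ 2 * (K * ((Nat.gcd g z0.natAbs : ℕ) : ℝ)) ^ 2 =
        8 * D ^ 2 * (K : ℝ) ^ 2 / (g : ℝ) ^ 2 * ((Nat.gcd g z0.natAbs : ℕ) : ℝ) ^ 2 := by
      ring
    linarith
  -- summation
  have hmaps : ∀ q ∈ Q, q e ∈ Finset.Icc (-(X₂ : ℤ)) X₂ := by
    intro q hq
    have h1 := (hQ q hq).2.1
    unfold nm at h1
    have h2 : |q 0| ≤ (X₂ : ℤ) := ((le_max_left _ _).trans (le_max_left _ _)).trans h1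
    have h3 : |q 1| ≤ (X₂ : ℤ) := ((le_max_right _ _).trans (le_max_left _ _)).trans h1
    have h4 : |q 2| ≤ (X₂ : ℤ) := (le_max_right _ _).trans h1
    have h5 : ∀ i : Fin 3, |q i| ≤ (X₂ : ℤ) := by
      intro i
      match i with
      | 0 => exact h2
      | 1 => exact h3
      | 2 => exact h4
    rw [Finset.mem_Icc]
    exact abs_le.1 (h5 e)
  have hcardQ : (Q.card : ℝ) = ∑ z ∈ Finset.Icc (-(X₂ : ℤ)) X₂,
      ((Q.filter (fun q => q e = z)).card : ℝ) := by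
    rw [Finset.card_eq_sum_card_fiberwise hmaps]
    push_cast
    rfl
  obtain ⟨B, hB⟩ : ∃ B : ℝ, B = 8 * D ^ 2 * (K : ℝ) ^ 2 / (g : ℝ) ^ 2 := ⟨_, rfl⟩
  have hB0 : 0 ≤ B := by
    rw [hB]
    positivity
  have hsum : (Q.card : ℝ) ≤ 2 + B * (g : ℝ) ^ 2 +
      2 * (2 * X₂ + B * (X₂ * (g * g.divisors.card))) := by
    rw [hcardQ]
    calc ∑ z ∈ Finset.Icc (-(X₂ : ℤ)) X₂, ((Q.filter (fun q => q e = z)).card : ℝ)
        ≤ ∑ z ∈ Finset.Icc (-(X₂ : ℤ)) X₂,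
          (fun n : ℕ => 2 + B * ((Nat.gcd g n : ℕ) : ℝ) ^ 2) z.natAbs := by
          apply Finset.sum_le_sum
          intro z _
          rw [hB]
          exact hslice z
      _ = 2 + B * ((Nat.gcd g 0 : ℕ) : ℝ) ^ 2 +
          2 * ∑ z ∈ Finset.Ioc 0 X₂, (2 + B * ((Nat.gcd g z : ℕ) : ℝ) ^ 2) := by
          rw [sum_abs (fun n : ℕ => 2 + B * ((Nat.gcd g n : ℕ) : ℝ) ^ 2) X₂]
      _ ≤ 2 + B * (g : ℝ) ^ 2 + 2 * (2 * X₂ + B * (X₂ * (g * g.divisors.card))) := by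
          rw [Nat.gcd_zero_right, Finset.sum_add_distrib, ← Finset.mul_sum]
          have h1 : ∑ z ∈ Finset.Ioc 0 X₂, (2 : ℝ) = 2 * X₂ := by
            rw [Finset.sum_const, Nat.card_Ioc, nsmul_eq_mul]
            simp only [Nat.sub_zero]
            ring
          have h2 : ∑ z ∈ Finset.Ioc 0 X₂, ((Nat.gcd g z : ℕ) : ℝ) ^ 2 ≤
              X₂ * (g * g.divisors.card) := by
            have h3 := gcd_sq_sum g X₂ hg
            exact_mod_cast h3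
          rw [h1]
          have h4 := mul_le_mul_of_nonneg_left h2 hB0
          linarith
  -- final estimate
  have hX1p : (0 : ℝ) < X₁ := by linarith
  have hX2p : (0 : ℝ) < X₂ := by linarith
  have hgp : (0 : ℝ) < g := by linarith
  have hτ : (1 : ℝ) ≤ g.divisors.card := by
    have h1 : 0 < g.divisors.card := Finset.card_pos.2 ⟨1, Nat.one_mem_divisors.2 (by omega)⟩
    exact_mod_cast h1
  obtain ⟨E, hE⟩ : ∃ E : ℝ, E = (Y : ℝ) ^ 2 * X₂ / ((X₁ : ℝ) ^ 2 * g) := ⟨_, rfl⟩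
  have hgYR : (g : ℝ) * X₁ ≤ Y := by exact_mod_cast hgY
  have hYAR : (Y : ℝ) ≤ A * X₁ * X₂ := by exact_mod_cast hYA
  have hgA : (g : ℝ) ≤ A * X₂ := by
    have h1 : (X₁ : ℝ) * g ≤ X₁ * (A * X₂) := by linarith
    exact le_of_mul_le_mul_left h1 hX1p
  have hE1 : (X₂ : ℝ) ≤ E := by
    rw [hE, le_div_iff₀ (by positivity)]
    have h1 : (X₁ : ℝ) ^ 2 * g ≤ (Y : ℝ) ^ 2 := by
      have h2 : ((g : ℝ) * X₁) ^ 2 ≤ (Y : ℝ) ^ 2 := pow_le_pow_left₀ (by positivity) hgYR 2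
      have h3 : (X₁ : ℝ) ^ 2 * g ≤ ((g : ℝ) * X₁) ^ 2 := by
        have h4 : (X₁ : ℝ) ^ 2 * g * 1 ≤ (X₁ : ℝ) ^ 2 * g * g :=
          mul_le_mul_of_nonneg_left hgR (by positivity)
        linarith
      linarith
    calc (X₂ : ℝ) * ((X₁ : ℝ) ^ 2 * g) ≤ X₂ * (Y : ℝ) ^ 2 :=
          mul_le_mul_of_nonneg_left h1 hX2p.le
      _ = (Y : ℝ) ^ 2 * X₂ := by ring
  have hE0 : 0 ≤ E := by linarith
  have hBE : B * (g * X₂) = 128 * (A : ℝ) ^ 2 * (K : ℝ) ^ 2 / c ^ 2 * E := by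
    rw [hB, hD, hE]
    field_simp
    ring
  have hP0 : 0 ≤ 128 * (A : ℝ) ^ 2 * (K : ℝ) ^ 2 / c ^ 2 := by positivity
  have hz : B * (g : ℝ) ^ 2 ≤ A * (128 * (A : ℝ) ^ 2 * (K : ℝ) ^ 2 / c ^ 2 * E) := by
    rw [← hBE]
    have h1 : B * (g : ℝ) * g ≤ B * (g : ℝ) * (A * X₂) :=
      mul_le_mul_of_nonneg_left hgA (by positivity)
    linarith
  rw [← hE]
  obtain ⟨Pc, hPc⟩ : ∃ Pc : ℝ, Pc = 128 * (A : ℝ) ^ 2 * (K : ℝ) ^ 2 / c ^ 2 := ⟨_, rfl⟩
  rw [← hPc] at hBE hz hP0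
  have hC : (6 + 128 * (A : ℝ) ^ 2 * (K : ℝ) ^ 2 * (A + 2) / c ^ 2) = 6 + Pc * (A + 2) := by
    rw [hPc]
    ring
  rw [hC]
  have h1 : B * (X₂ * (g * g.divisors.card)) = Pc * E * g.divisors.card := by
    rw [← hBE]
    ring
  rw [h1] at hsum
  have h2 : (2 : ℝ) + 4 * X₂ ≤ 6 * E := by linarith
  have h3 : 6 * E ≤ 6 * E * g.divisors.card := le_mul_of_one_le_right (by positivity) hτ
  have h4 : (A : ℝ) * (Pc * E) ≤ A * (Pc * E) * g.divisors.card :=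
    le_mul_of_one_le_right (by positivity) hτ
  calc (Q.card : ℝ) ≤ 2 + B * (g : ℝ) ^ 2 + 2 * (2 * X₂ + Pc * E * g.divisors.card) := hsum
    _ ≤ 6 * E * g.divisors.card + A * (Pc * E) * g.divisors.card +
        2 * (Pc * E * g.divisors.card) := by linarith
    _ = (6 + Pc * (A + 2)) * g.divisors.card * E := by ring

end Pool.Agent.W101.QN
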